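import Pool.Agent.Q229.PS.Stm

set_option autoImplicit false

/-!
# Project PS (helper229): job M1 (helper190)
-/

namespace Pool.Agent.Q190.PS

open Pool.Agent.Q229.PS Filter Topology

theorem adjC_mono_mem {α : Type} {P Q : α → α → Prop} (l : List α)
    (h : ∀ a ∈ l, ∀ b ∈ l, P a b → Q a b) : adjC P l ≤ adjC Q l := by
  classical
  have h1 : adjC P l = adjC (fun a b => P a b ∧ Q a b) l :=
    adjC_congr l fun a ha b hb => ⟨fun hab => ⟨hab, h a ha b hb hab⟩, fun hab => hab.1⟩
  rw [h1]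
  exact adjC_mono (fun a b hab => hab.2) l

/-- the cast of `detS` -/
theorem detS_cast (a b p : ℚ × ℚ) : ((detS a b p : ℚ) : ℝ) =
    ((b.1 : ℝ) - a.1) * ((p.2 : ℝ) - a.2) - ((b.2 : ℝ) - a.2) * ((p.1 : ℝ) - a.1) := by
  unfold detS
  push_cast
  ring

theorem dotS_cast (a b p : ℚ × ℚ) : ((dotS a b p : ℚ) : ℝ) =
    ((b.1 : ℝ) - a.1) * (2 * (p.1 : ℝ) - a.1 - b.1) +
      ((b.2 : ℝ) - a.2) * (2 * (p.2 : ℝ) - a.2 - b.2) := by
  unfold dotS
  push_cast
  ring

theorem exists_delta (P : List (ℚ × ℚ)) (a b : ℚ × ℚ) : ∃ δ : ℝ, 0 < δ ∧ ∀ p ∈ P, detS a b p ≠ 0 →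
    δ * |((dotS a b p : ℚ) : ℝ)| < |((detS a b p : ℚ) : ℝ)| := by
  have h1 : ∀ p ∈ P.toFinset, ∀ᶠ δ in 𝓝[>] (0 : ℝ), detS a b p ≠ 0 →
      δ * |((dotS a b p : ℚ) : ℝ)| < |((detS a b p : ℚ) : ℝ)| := by
    intro p _
    by_cases h : detS a b p = 0
    · exact Eventually.of_forall fun δ h' => absurd h h'
    · have h2 : (0 : ℝ) * |((dotS a b p : ℚ) : ℝ)| < |((detS a b p : ℚ) : ℝ)| := by
        rw [zero_mul]
        exact abs_pos.2 (by exact_mod_cast h)
      have h3 : Tendsto (fun δ : ℝ => δ * |((dotS a b p : ℚ) : ℝ)|) (𝓝[>] 0)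
          (𝓝 (0 * |((dotS a b p : ℚ) : ℝ)|)) :=
        ((continuous_id.mul continuous_const).tendsto 0).mono_left nhdsWithin_le_nhds
      filter_upwards [h3.eventually_lt_const h2] with δ hδ _
      exact hδ
  have h2 := (Finset.eventually_all P.toFinset).2 h1
  obtain ⟨δ, h3, h4⟩ := (h2.and self_mem_nhdsWithin).exists
  exact ⟨δ, h4, fun p hp => h3 p (List.mem_toFinset.2 hp)⟩

theorem ne_sq {a b : ℚ × ℚ} (h : a ≠ b) : 0 < ((b.1 : ℝ) - a.1) ^ 2 + ((b.2 : ℝ) - a.2) ^ 2 := by
  by_contra hcon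
  push Not at hcon
  have h1 : ((b.1 : ℝ) - a.1) = 0 := by nlinarith [sq_nonneg ((b.1 : ℝ) - a.1), sq_nonneg ((b.2 : ℝ) - a.2)]
  have h2 : ((b.2 : ℝ) - a.2) = 0 := by nlinarith [sq_nonneg ((b.1 : ℝ) - a.1), sq_nonneg ((b.2 : ℝ) - a.2)]
  apply h
  have h3 : (b.1 : ℝ) = a.1 := by linarith
  have h4 : (b.2 : ℝ) = a.2 := by linarith
  exact Prod.ext (by exact_mod_cast h3.symm) (by exact_mod_cast h4.symm)

/-- (→) -/
theorem m1_mp (P : List (ℚ × ℚ)) (k : ℤ)
    (H : ∀ α β γ : ℝ, (α ≠ 0 ∨ β ≠ 0) → (adjC (Stabs α β γ) P : ℤ) ≤ k)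
    (a b : ℚ × ℚ) (hab : a ≠ b) (e : Bool) :
    (adjC (fun p q => lexS a b e p * lexS a b e q < 0) P : ℤ) ≤ k := by
  obtain ⟨δ, hδ, hd⟩ := exists_delta P a b
  obtain ⟨ε, hε, hε'⟩ : ∃ ε : ℝ, (ε = 1 ∨ ε = -1) ∧ ∀ p, detS a b p = 0 →
      ((lexS a b e p : ℚ) : ℝ) = ε * ((dotS a b p : ℚ) : ℝ) := by
    cases e with
    | true =>
      refine ⟨1, Or.inl rfl, fun p hp => ?_⟩
      unfold lexS
      rw [if_neg (not_not.2 hp), if_pos rfl, one_mul]
    | false =>
      refine ⟨-1, Or.inr rfl, fun p hp => ?_⟩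
      unfold lexS
      rw [if_neg (not_not.2 hp), if_neg Bool.false_ne_true]
      push_cast
      ring
  obtain ⟨α, hα⟩ : ∃ α : ℝ, α = -((b.2 : ℝ) - a.2) + 2 * δ * ε * ((b.1 : ℝ) - a.1) := ⟨_, rfl⟩
  obtain ⟨β, hβ⟩ : ∃ β : ℝ, β = ((b.1 : ℝ) - a.1) + 2 * δ * ε * ((b.2 : ℝ) - a.2) := ⟨_, rfl⟩
  obtain ⟨γ, hγ⟩ : ∃ γ : ℝ, γ = ((b.1 : ℝ) - a.1) * a.2 - ((b.2 : ℝ) - a.2) * a.1 +
      δ * ε * (((b.1 : ℝ) - a.1) * (a.1 + b.1) + ((b.2 : ℝ) - a.2) * (a.2 + b.2)) := ⟨_, rfl⟩
  have hf : ∀ p : ℚ × ℚ, α * (p.1 : ℝ) + β * (p.2 : ℝ) - γ =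
      ((detS a b p : ℚ) : ℝ) + δ * (ε * ((dotS a b p : ℚ) : ℝ)) := by
    intro p
    rw [detS_cast, dotS_cast, hα, hβ, hγ]
    ring
  have hε2 : ε ^ 2 = 1 := by rcases hε with h | h <;> rw [h] <;> norm_num
  have hne : α ≠ 0 ∨ β ≠ 0 := by
    by_contra hcon
    push Not at hcon
    have h1 : α ^ 2 + β ^ 2 = (((b.1 : ℝ) - a.1) ^ 2 + ((b.2 : ℝ) - a.2) ^ 2) *
        (1 + 4 * δ ^ 2 * ε ^ 2) := by
      rw [hα, hβ]
      ring
    rw [hcon.1, hcon.2, hε2] at h1
    have h2 := ne_sq hab
    have h3 : 0 < (((b.1 : ℝ) - a.1) ^ 2 + ((b.2 : ℝ) - a.2) ^ 2) * (1 + 4 * δ ^ 2 * 1) := by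
      positivity
    rw [← h1] at h3
    norm_num at h3
  have hsign : ∀ p ∈ P, (0 < lexS a b e p → 0 < α * (p.1 : ℝ) + β * (p.2 : ℝ) - γ) ∧
      (lexS a b e p < 0 → α * (p.1 : ℝ) + β * (p.2 : ℝ) - γ < 0) := by
    intro p hp
    rw [hf p]
    by_cases h : detS a b p = 0
    · have h1 := hε' p h
      rw [h]
      constructor
      · intro h2
        have h3 : (0 : ℝ) < ((lexS a b e p : ℚ) : ℝ) := by exact_mod_cast h2
        rw [← h1]
        push_cast
        rw [zero_add]
        exact mul_pos hδ h3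
      · intro h2
        have h3 : ((lexS a b e p : ℚ) : ℝ) < 0 := by exact_mod_cast h2
        rw [← h1]
        push_cast
        rw [zero_add]
        exact mul_neg_of_pos_of_neg hδ h3
    · have h1 : lexS a b e p = detS a b p := by
        unfold lexS
        rw [if_pos h]
      have h2 := hd p hp h
      have h3 : |δ * (ε * ((dotS a b p : ℚ) : ℝ))| < |((detS a b p : ℚ) : ℝ)| := by
        have h4 : |ε| = 1 := by rcases hε with h | h <;> rw [h] <;> norm_num
        rw [abs_mul, abs_mul, h4, one_mul, abs_of_pos hδ]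
        exact h2
      rw [h1]
      constructor
      · intro h4
        have h5 : (0 : ℝ) < ((detS a b p : ℚ) : ℝ) := by exact_mod_cast h4
        rw [abs_of_pos h5] at h3
        linarith [(abs_lt.1 h3).1]
      · intro h4
        have h5 : ((detS a b p : ℚ) : ℝ) < 0 := by exact_mod_cast h4
        rw [abs_of_neg h5] at h3
        linarith [(abs_lt.1 h3).2]
  have h1 := H α β γ hne
  have h2 : adjC (fun p q => lexS a b e p * lexS a b e q < 0) P ≤ adjC (Stabs α β γ) P := by
    refine adjC_mono_mem P fun p hp q hq hpq => ?_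
    unfold Stabs
    rcases mul_neg_iff.1 hpq with ⟨u1, u2⟩ | ⟨u1, u2⟩
    · exact mul_neg_of_pos_of_neg ((hsign p hp).1 u1) ((hsign q hq).2 u2)
    · exact mul_neg_of_neg_of_pos ((hsign p hp).2 u1) ((hsign q hq).1 u2)
  have h3 : (adjC (fun p q => lexS a b e p * lexS a b e q < 0) P : ℤ) ≤
      (adjC (Stabs α β γ) P : ℤ) := by exact_mod_cast h2
  exact h3.trans h1

/-- the optimal pair -/
theorem exists_opt {ι : Type} (S T : Finset ι) (hS : S.Nonempty) (hT : T.Nonempty) (s d : ι × ι → ℝ) :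
    ∃ a ∈ S, ∃ b ∈ T, (∀ p ∈ S, ∀ q ∈ T, s (p, q) ≤ s (a, b)) ∧
      ∀ p ∈ S, ∀ q ∈ T, s (p, q) = s (a, b) → d (a, b) ≤ d (p, q) := by
  classical
  obtain ⟨x, hx, hmax⟩ := (S ×ˢ T).exists_max_image s (hS.product hT)
  have hne : ((S ×ˢ T).filter fun y => s y = s x).Nonempty := ⟨x, Finset.mem_filter.2 ⟨hx, rfl⟩⟩
  obtain ⟨y, hy, hmin⟩ := ((S ×ˢ T).filter fun y => s y = s x).exists_min_image d hne
  rw [Finset.mem_filter, Finset.mem_product] at hy
  refine ⟨y.1, hy.1.1, y.2, hy.1.2, fun p hp q hq => ?_, fun p hp q hq h => ?_⟩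
  · show s (p, q) ≤ s y
    rw [hy.2]
    exact hmax _ (Finset.mk_mem_product hp hq)
  · refine hmin (p, q) (Finset.mem_filter.2 ⟨Finset.mk_mem_product hp hq, ?_⟩)
    rw [h]
    exact hy.2

/-- (←) -/
theorem m1_mpr (P : List (ℚ × ℚ)) (k : ℤ) (hnd : P.Nodup) (hlen : 2 ≤ P.length)
    (H : ∀ a ∈ P, ∀ b ∈ P, a ≠ b → ∀ e : Bool,
      (adjC (fun p q => lexS a b e p * lexS a b e q < 0) P : ℤ) ≤ k)
    (α β γ : ℝ) (hne : α ≠ 0 ∨ β ≠ 0) : (adjC (Stabs α β γ) P : ℤ) ≤ k := by
  classical
  have hk : 0 ≤ k := by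
    have h0 : P[0]'(by omega) ≠ P[1]'(by omega) := by
      intro h
      have := (List.Nodup.getElem_inj_iff hnd).1 h
      omega
    exact le_trans (Int.natCast_nonneg _)
      (H _ (List.getElem_mem (by omega)) _ (List.getElem_mem (by omega)) h0 true)
  obtain ⟨f, hf⟩ : ∃ f : ℚ × ℚ → ℝ, ∀ p, f p = α * (p.1 : ℝ) + β * (p.2 : ℝ) - γ :=
    ⟨_, fun _ => rfl⟩
  obtain ⟨h, hh⟩ : ∃ h : ℚ × ℚ → ℝ, ∀ p, h p = -β * (p.1 : ℝ) + α * (p.2 : ℝ) :=
    ⟨_, fun _ => rfl⟩
  have hst : ∀ p q, Stabs α β γ p q ↔ f p * f q < 0 := by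
    intro p q
    rw [hf, hf]
    exact Iff.rfl
  by_cases hS : ((P.toFinset).filter fun p => 0 < f p).Nonempty
  · by_cases hT : ((P.toFinset).filter fun p => f p < 0).Nonempty
    · obtain ⟨a, ha, b, hb, hmax, hmin⟩ := exists_opt _ _ hS hT
        (fun x => (h x.1 - h x.2) / (f x.1 - f x.2)) (fun x => f x.1 - f x.2)
      rw [Finset.mem_filter, List.mem_toFinset] at ha hb
      have hab : a ≠ b := by
        rintro rfl
        linarith [ha.2, hb.2]
      have hfab : 0 < f a - f b := by linarith [ha.2, hb.2]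
      have hN : 0 < α ^ 2 + β ^ 2 := by
        rcases hne with h1 | h1
        · have := sq_pos_of_ne_zero h1
          nlinarith [sq_nonneg β]
        · have := sq_pos_of_ne_zero h1
          nlinarith [sq_nonneg α]
      have hu := ne_sq hab
      obtain ⟨u1, hu1⟩ : ∃ u1 : ℝ, u1 = (b.1 : ℝ) - a.1 := ⟨_, rfl⟩
      obtain ⟨u2, hu2⟩ : ∃ u2 : ℝ, u2 = (b.2 : ℝ) - a.2 := ⟨_, rfl⟩
      rw [← hu1, ← hu2] at hu
      have hfu : α * u1 + β * u2 < 0 := by
        have h1 : f b - f a = α * u1 + β * u2 := by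
          rw [hf, hf, hu1, hu2]
          ring
        linarith
      have hD : ∀ p : ℚ × ℚ, (h p - h b) * (f a - f b) - (h a - h b) * (f p - f b) =
          -(α ^ 2 + β ^ 2) * ((detS a b p : ℚ) : ℝ) := by
        intro p
        rw [detS_cast, hh, hh, hh, hf, hf, hf]
        ring
      have hpos : ∀ p ∈ P, 0 < f p → 0 < lexS a b false p := by
        intro p hp hfp
        have hpS : p ∈ (P.toFinset).filter fun p => 0 < f p :=
          Finset.mem_filter.2 ⟨List.mem_toFinset.2 hp, hfp⟩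
        have hbT : b ∈ (P.toFinset).filter fun p => f p < 0 :=
          Finset.mem_filter.2 ⟨List.mem_toFinset.2 hb.1, hb.2⟩
        have hfpb : 0 < f p - f b := by linarith [hb.2]
        have h1 := hmax p hpS b hbT
        simp only at h1
        rw [div_le_div_iff₀ hfpb hfab] at h1
        have h2 : 0 ≤ ((detS a b p : ℚ) : ℝ) := by
          have h3 := hD p
          by_contra hcon
          push Not at hcon
          nlinarith
        by_cases h3 : detS a b p = 0
        · have h4 : (h p - h b) * (f a - f b) = (h a - h b) * (f p - f b) := by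
            have h5 := hD p
            rw [h3] at h5
            push_cast at h5
            linarith
          have h5 := hmin p hpS b hbT (by
            simp only
            rw [div_eq_div_iff hfpb.ne' hfab.ne']
            exact h4)
          simp only at h5
          have h6 : 0 ≤ f p - f a := by linarith
          have h7 : ((dotS a b p : ℚ) : ℝ) < 0 := by
            obtain ⟨w1, hw1⟩ : ∃ w1 : ℝ, w1 = (p.1 : ℝ) - a.1 := ⟨_, rfl⟩
            obtain ⟨w2, hw2⟩ : ∃ w2 : ℝ, w2 = (p.2 : ℝ) - a.2 := ⟨_, rfl⟩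
            have h8 : u1 * w2 - u2 * w1 = 0 := by
              have h9 := detS_cast a b p
              rw [h3, ← hu1, ← hu2, ← hw1, ← hw2] at h9
              push_cast at h9
              linarith
            have h9 : f p - f a = α * w1 + β * w2 := by
              rw [hf, hf, hw1, hw2]
              ring
            have h10 : (u1 * w1 + u2 * w2) * (α * u1 + β * u2) =
                (u1 ^ 2 + u2 ^ 2) * (α * w1 + β * w2) := by
              linear_combination (α * u2 - β * u1) * h8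
            have h11 : u1 * w1 + u2 * w2 ≤ 0 := by
              by_contra hcon
              push Not at hcon
              have h12 : (u1 * w1 + u2 * w2) * (α * u1 + β * u2) < 0 :=
                mul_neg_of_pos_of_neg hcon hfu
              rw [h10, ← h9] at h12
              have h13 : 0 ≤ (u1 ^ 2 + u2 ^ 2) * (f p - f a) := mul_nonneg hu.le h6
              linarith
            have h12 : ((dotS a b p : ℚ) : ℝ) = 2 * (u1 * w1 + u2 * w2) - (u1 ^ 2 + u2 ^ 2) := by
              rw [dotS_cast, hu1, hu2, hw1, hw2]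
              ring
            rw [h12]
            linarith
          unfold lexS
          rw [if_neg (not_not.2 h3), if_neg Bool.false_ne_true]
          have h8 : dotS a b p < 0 := by exact_mod_cast h7
          linarith
        · unfold lexS
          rw [if_pos h3]
          have h4 : (0 : ℚ) ≤ detS a b p := by exact_mod_cast h2
          exact lt_of_le_of_ne h4 (Ne.symm h3)
      have hneg : ∀ p ∈ P, f p < 0 → lexS a b false p < 0 := by
        intro p hp hfp
        have hpT : p ∈ (P.toFinset).filter fun p => f p < 0 :=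
          Finset.mem_filter.2 ⟨List.mem_toFinset.2 hp, hfp⟩
        have haS : a ∈ (P.toFinset).filter fun p => 0 < f p :=
          Finset.mem_filter.2 ⟨List.mem_toFinset.2 ha.1, ha.2⟩
        have hfap : 0 < f a - f p := by linarith [ha.2]
        have h1 := hmax a haS p hpT
        simp only at h1
        rw [div_le_div_iff₀ hfap hfab] at h1
        have h2 : ((detS a b p : ℚ) : ℝ) ≤ 0 := by
          have h3 := hD p
          by_contra hcon
          push Not at hcon
          nlinarith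
        by_cases h3 : detS a b p = 0
        · have h4 : (h a - h p) * (f a - f b) = (h a - h b) * (f a - f p) := by
            have h5 := hD p
            rw [h3] at h5
            push_cast at h5
            linarith
          have h5 := hmin a haS p hpT (by
            simp only
            rw [div_eq_div_iff hfap.ne' hfab.ne']
            exact h4)
          simp only at h5
          have h6 : f p - f b ≤ 0 := by linarith
          have h7 : 0 < ((dotS a b p : ℚ) : ℝ) := by
            obtain ⟨w1, hw1⟩ : ∃ w1 : ℝ, w1 = (p.1 : ℝ) - b.1 := ⟨_, rfl⟩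
            obtain ⟨w2, hw2⟩ : ∃ w2 : ℝ, w2 = (p.2 : ℝ) - b.2 := ⟨_, rfl⟩
            have h8 : u1 * w2 - u2 * w1 = 0 := by
              have h9 := detS_cast a b p
              rw [h3] at h9
              push_cast at h9
              rw [hu1, hu2, hw1, hw2]
              linear_combination -h9
            have h9 : f p - f b = α * w1 + β * w2 := by
              rw [hf, hf, hw1, hw2]
              ring
            have h10 : (u1 * w1 + u2 * w2) * (α * u1 + β * u2) =
                (u1 ^ 2 + u2 ^ 2) * (α * w1 + β * w2) := by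
              linear_combination (α * u2 - β * u1) * h8
            have h11 : 0 ≤ u1 * w1 + u2 * w2 := by
              by_contra hcon
              push Not at hcon
              have h12 : 0 < (u1 * w1 + u2 * w2) * (α * u1 + β * u2) :=
                mul_pos_of_neg_of_neg hcon hfu
              rw [h10, ← h9] at h12
              have h13 : (u1 ^ 2 + u2 ^ 2) * (f p - f b) ≤ 0 :=
                mul_nonpos_of_nonneg_of_nonpos hu.le h6
              linarith
            have h12 : ((dotS a b p : ℚ) : ℝ) = 2 * (u1 * w1 + u2 * w2) + (u1 ^ 2 + u2 ^ 2) := by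
              rw [dotS_cast, hu1, hu2, hw1, hw2]
              ring
            rw [h12]
            linarith
          unfold lexS
          rw [if_neg (not_not.2 h3), if_neg Bool.false_ne_true]
          have h8 : 0 < dotS a b p := by exact_mod_cast h7
          linarith
        · unfold lexS
          rw [if_pos h3]
          have h4 : detS a b p ≤ (0 : ℚ) := by exact_mod_cast h2
          exact lt_of_le_of_ne h4 h3
      have h1 := H a ha.1 b hb.1 hab false
      have h2 : adjC (Stabs α β γ) P ≤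
          adjC (fun p q => lexS a b false p * lexS a b false q < 0) P := by
        refine adjC_mono_mem P fun p hp q hq hpq => ?_
        rw [hst] at hpq
        rcases mul_neg_iff.1 hpq with ⟨v1, v2⟩ | ⟨v1, v2⟩
        · exact mul_neg_of_pos_of_neg (hpos p hp v1) (hneg q hq v2)
        · exact mul_neg_of_neg_of_pos (hneg p hp v1) (hpos q hq v2)
      have h3 : (adjC (Stabs α β γ) P : ℤ) ≤
          (adjC (fun p q => lexS a b false p * lexS a b false q < 0) P : ℤ) := by exact_mod_cast h2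
      exact h3.trans h1
    · have h0 : adjC (Stabs α β γ) P = 0 := by
        refine adjC_eq_zero P fun p hp q hq hpq => ?_
        rw [hst] at hpq
        apply hT
        rcases mul_neg_iff.1 hpq with ⟨v1, v2⟩ | ⟨v1, v2⟩
        · exact ⟨q, Finset.mem_filter.2 ⟨List.mem_toFinset.2 hq, v2⟩⟩
        · exact ⟨p, Finset.mem_filter.2 ⟨List.mem_toFinset.2 hp, v1⟩⟩
      rw [h0]
      exact hk
  · have h0 : adjC (Stabs α β γ) P = 0 := by
      refine adjC_eq_zero P fun p hp q hq hpq => ?_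
      rw [hst] at hpq
      apply hS
      rcases mul_neg_iff.1 hpq with ⟨v1, v2⟩ | ⟨v1, v2⟩
      · exact ⟨p, Finset.mem_filter.2 ⟨List.mem_toFinset.2 hp, v1⟩⟩
      · exact ⟨q, Finset.mem_filter.2 ⟨List.mem_toFinset.2 hq, v2⟩⟩
    rw [h0]
    exact hk

/-- **PS-M1.** -/
theorem t_M1 : M1Stm := fun P k hnd hlen =>
  ⟨fun H a _ b _ hab e => m1_mp P k H a b hab e, fun H α β γ hne => m1_mpr P k hnd hlen H α β γ hne⟩

end Pool.Agent.Q190.PS
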