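import Pool.Agent.Q229.PS.Stm

set_option autoImplicit false

/-!
# Project PS (helper229): job Y1 (helper190)
-/

namespace Pool.Agent.Q190.PS

open Pool.Agent.Q229.PS

section signs

variable (f : Pt → ℝ)

theorem sc_cc (p q : Pt) (l : List Pt) :
    sc f (p :: q :: l) = (open Classical in if f p * f q < 0 then 1 else 0) + sc f (q :: l) := by
  unfold sc
  exact adjC_cons_cons p q l

theorem sc_one (p : Pt) : sc f [p] = 0 := rfl

/-- both points negative -/
theorem sc_nn {p q : Pt} (hp : f p < 0) (hq : f q < 0) (l : List Pt) :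
    sc f (p :: q :: l) = sc f (q :: l) := by
  rw [sc_cc, if_neg (by nlinarith), zero_add]

/-- both points positive -/
theorem sc_pp {p q : Pt} (hp : 0 < f p) (hq : 0 < f q) (l : List Pt) :
    sc f (p :: q :: l) = sc f (q :: l) := by
  rw [sc_cc, if_neg (by nlinarith), zero_add]

/-- negative, anything, anything, negative: at most two sign changes -/
theorem sc_four {p q r s : Pt} (hp : f p < 0) (hs : f s < 0) (l : List Pt) :
    sc f (p :: q :: r :: s :: l) ≤ 2 + sc f (s :: l) := by
  rw [sc_cc, sc_cc, sc_cc]
  by_cases h1 : f p * f q < 0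
  · have hq : 0 < f q := by
      by_contra h
      push Not at h
      nlinarith
    by_cases h2 : f q * f r < 0
    · have hr : f r < 0 := by
        by_contra h
        push Not at h
        nlinarith
      rw [if_pos h1, if_pos h2, if_neg (by nlinarith)]
      omega
    · rw [if_neg h2]
      split_ifs <;> omega
  · rw [if_neg h1]
    split_ifs <;> omega

/-- negative, anything, positive: at most one sign change -/
theorem sc_three {p q r : Pt} (hp : f p < 0) (hr : 0 < f r) (l : List Pt) :
    sc f (p :: q :: r :: l) ≤ 1 + sc f (r :: l) := by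
  rw [sc_cc, sc_cc]
  by_cases h1 : f p * f q < 0
  · have hq : 0 < f q := by
      by_contra h
      push Not at h
      nlinarith
    rw [if_pos h1, if_neg (by nlinarith)]
    omega
  · rw [if_neg h1]
    split_ifs <;> omega

variable (a b : ℕ → Pt)

theorem partA (x : Pt) (hx : f x < 0) (k : ℕ) : (∀ i < 2 * k, f (a i) < 0) → ∀ z : Pt, f z < 0 →
    sc f (x :: (zg a b (2 * k) ++ [z])) ≤ 2 * k := by
  induction k with
  | zero =>
    intro _ z hz
    have h0 : zg a b (2 * 0) = [] := rfl
    rw [h0, List.nil_append, sc_nn f hx hz, sc_one]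
  | succ k ih =>
    intro ha z hz
    have h1 : zg a b (2 * (k + 1)) = zg a b (2 * k) ++
        [a (2 * k), b (2 * k), b (2 * k + 1), a (2 * k + 1)] := by
      rw [show 2 * (k + 1) = 2 * k + 1 + 1 by ring, zg_succ, zg_succ, if_pos (by omega),
        if_neg (by omega), List.append_assoc]
      rfl
    have h2 : x :: (zg a b (2 * (k + 1)) ++ [z]) = (x :: zg a b (2 * k)) ++
        a (2 * k) :: [b (2 * k), b (2 * k + 1), a (2 * k + 1), z] := by
      rw [h1]
      simp
    rw [h2]
    unfold sc
    rw [adjC_append]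
    have h3 := ih (fun i hi => ha i (by omega)) (a (2 * k)) (ha _ (by omega))
    have h4 : sc f (a (2 * k) :: [b (2 * k), b (2 * k + 1), a (2 * k + 1), z]) ≤ 2 := by
      refine (sc_four f (ha _ (by omega)) (ha _ (by omega)) _).trans ?_
      rw [sc_nn f (ha _ (by omega)) hz, sc_one]
    unfold sc at h3 h4
    rw [List.cons_append]
    omega

theorem partB (x : Pt) (hx : f x < 0) (k : ℕ) : (∀ i < 2 * k + 1, 0 < f (b i)) → ∀ z : Pt, 0 < f z →
    sc f (x :: (zg a b (2 * k + 1) ++ [z])) ≤ 2 * k + 1 := by
  induction k with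
  | zero =>
    intro hb z hz
    have h0 : zg a b (2 * 0 + 1) = [a 0, b 0] := rfl
    rw [h0]
    show sc f (x :: a 0 :: b 0 :: [z]) ≤ _
    refine (sc_three f hx (hb 0 (by omega)) _).trans ?_
    rw [sc_pp f (hb 0 (by omega)) hz, sc_one]
  | succ k ih =>
    intro hb z hz
    have h1 : zg a b (2 * (k + 1) + 1) = zg a b (2 * k + 1) ++
        [b (2 * k + 1), a (2 * k + 1), a (2 * k + 2), b (2 * k + 2)] := by
      rw [show 2 * (k + 1) + 1 = 2 * k + 1 + 1 + 1 by ring, zg_succ, zg_succ, if_neg (by omega),
        if_pos (by omega), List.append_assoc]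
      rfl
    have h2 : x :: (zg a b (2 * (k + 1) + 1) ++ [z]) = (x :: zg a b (2 * k + 1)) ++
        b (2 * k + 1) :: [a (2 * k + 1), a (2 * k + 2), b (2 * k + 2), z] := by
      rw [h1]
      simp
    rw [h2]
    unfold sc
    rw [adjC_append]
    have h3 := ih (fun i hi => hb i (by omega)) (b (2 * k + 1)) (hb _ (by omega))
    have h4 : sc f (b (2 * k + 1) :: [a (2 * k + 1), a (2 * k + 2), b (2 * k + 2), z]) ≤ 2 := by
      have h5 := sc_four (fun q => - f q) (p := b (2 * k + 1)) (q := a (2 * k + 1))
        (r := a (2 * k + 2)) (s := b (2 * k + 2)) (by linarith [hb (2 * k + 1) (by omega)])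
        (by linarith [hb (2 * k + 2) (by omega)]) [z]
      rw [sc_neg', sc_neg', sc_pp f (hb (2 * k + 2) (by omega)) hz, sc_one] at h5
      exact h5
    unfold sc at h3 h4
    rw [List.cons_append]
    omega

open Classical in
theorem partC (n : ℕ) : sc f (zg a b n ++ [if n % 2 = 0 then a n else b n]) ≤
    ∑ i ∈ Finset.range n, (if f (a i) * f (b i) < 0 then 1 else 0) +
    ∑ i ∈ Finset.range n, (if f (a i) * f (a (i + 1)) < 0 then 1 else 0) +
    ∑ i ∈ Finset.range n, (if f (b i) * f (b (i + 1)) < 0 then 1 else 0) := by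
  induction n with
  | zero =>
    have h0 : zg a b 0 = [] := rfl
    rw [h0, List.nil_append, sc_one]
    exact Nat.zero_le _
  | succ n ih =>
    rw [Finset.sum_range_succ, Finset.sum_range_succ, Finset.sum_range_succ, zg_succ]
    by_cases hn : n % 2 = 0
    · rw [if_pos hn, if_neg (by omega)]
      rw [if_pos hn] at ih
      have h1 : zg a b n ++ [a n, b n] ++ [b (n + 1)] = zg a b n ++ a n :: [b n, b (n + 1)] := by
        simp
      have h2 : sc f (zg a b n ++ a n :: [b n, b (n + 1)]) =
          sc f (zg a b n ++ [a n]) + sc f (a n :: [b n, b (n + 1)]) := adjC_append _ _ _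
      rw [h1, h2, sc_cc, sc_cc, sc_one]
      split_ifs <;> omega
    · rw [if_neg hn, if_pos (by omega)]
      rw [if_neg hn] at ih
      have h1 : zg a b n ++ [b n, a n] ++ [a (n + 1)] = zg a b n ++ b n :: [a n, a (n + 1)] := by
        simp
      have h2 : sc f (zg a b n ++ b n :: [a n, a (n + 1)]) =
          sc f (zg a b n ++ [b n]) + sc f (b n :: [a n, a (n + 1)]) := adjC_append _ _ _
      have h3 : (if f (b n) * f (a n) < 0 then 1 else 0) = (if f (a n) * f (b n) < 0 then 1 else 0) := by
        rw [mul_comm]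
      rw [h1, h2, sc_cc, sc_cc, sc_one, h3]
      split_ifs <;> omega

open Classical in
theorem sum_le_one (n : ℕ) (P : ℕ → Prop) (h : ∀ i < n, ∀ j < n, P i → P j → i = j) :
    ∑ i ∈ Finset.range n, (if P i then 1 else 0) ≤ 1 := by
  rw [← Finset.card_filter, Finset.card_le_one]
  intro i hi j hj
  rw [Finset.mem_filter, Finset.mem_range] at hi hj
  exact h i hi.1 j hj.1 hi.2 hj.2

theorem affine_change {g : ℕ → ℝ} (h : ∃ c d : ℝ, ∀ i : ℕ, g i = c + i * d) {i j : ℕ}
    (hi : g i * g (i + 1) < 0) (hj : g j * g (j + 1) < 0) : i = j := by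
  obtain ⟨c, d, hg⟩ := h
  have key : ∀ i j : ℕ, i < j → g i * g (i + 1) < 0 → g j * g (j + 1) < 0 → False := by
    intro i j hij hi hj
    have h1 : ((i : ℝ) + 1) ≤ j := by exact_mod_cast hij
    rw [hg, hg] at hi hj
    push_cast at hi hj
    rcases mul_neg_iff.1 hi with ⟨u1, u2⟩ | ⟨u1, u2⟩
    · have hd : d < 0 := by nlinarith
      have h3 : c + j * d < 0 := by nlinarith
      have h4 : c + (j + 1) * d < 0 := by nlinarith
      nlinarith
    · have hd : 0 < d := by nlinarith
      have h3 : 0 < c + j * d := by nlinarith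
      have h4 : 0 < c + (j + 1) * d := by nlinarith
      nlinarith
  rcases lt_trichotomy i j with h | h | h
  · exact (key i j h hi hj).elim
  · exact h
  · exact (key j i h hj hi).elim

end signs

/-- **PS-Y1.** -/
theorem t_Y1 : Y1Stm := by
  classical
  intro f a b n
  refine ⟨?_, ?_, ?_, ?_⟩
  · intro x y hn hx hy h
    obtain ⟨k, rfl⟩ : ∃ k, n = 2 * k + 1 := ⟨n / 2, by omega⟩
    rcases h with h | h
    · have h1 : x :: (zg a b (2 * k + 1) ++ [y]) = (x :: zg a b (2 * k)) ++
          a (2 * k) :: [b (2 * k), y] := by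
        rw [zg_succ, if_pos (by omega)]
        simp
      rw [h1]
      have h2 : sc f ((x :: zg a b (2 * k)) ++ a (2 * k) :: [b (2 * k), y]) =
          sc f (x :: (zg a b (2 * k) ++ [a (2 * k)])) + sc f (a (2 * k) :: [b (2 * k), y]) :=
        adjC_append _ _ _
      rw [h2]
      have h3 := partA f a b x hx k (fun i hi => h i (by omega)) (a (2 * k)) (h _ (by omega))
      have h4 : sc f (a (2 * k) :: [b (2 * k), y]) ≤ 1 :=
        (sc_three f (h _ (by omega)) hy []).trans (by rw [sc_one])
      omega
    · exact partB f a b x hx k (fun i hi => h i (by omega)) y hy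
  · intro x y hn hx hy h
    obtain ⟨k, rfl⟩ : ∃ k, n = 2 * k := ⟨n / 2, by omega⟩
    rcases h with h | h
    · have h1 := partA (fun q => - f q) a b x (by simpa using hx) k
        (fun i hi => by simpa using h i (by omega)) y (by simpa using hy)
      rwa [sc_neg'] at h1
    · rcases Nat.eq_zero_or_pos k with rfl | hk
      · have h0 : zg a b (2 * 0) = [] := rfl
        rw [h0, List.nil_append, sc_pp f hx hy, sc_one]
      · obtain ⟨m, rfl⟩ : ∃ m, k = m + 1 := ⟨k - 1, by omega⟩
        have h1 : x :: (zg a b (2 * (m + 1)) ++ [y]) = (x :: zg a b (2 * m + 1)) ++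
            b (2 * m + 1) :: [a (2 * m + 1), y] := by
          rw [show 2 * (m + 1) = 2 * m + 1 + 1 by ring, zg_succ, if_neg (by omega)]
          simp
        rw [h1]
        have h2 : sc f ((x :: zg a b (2 * m + 1)) ++ b (2 * m + 1) :: [a (2 * m + 1), y]) =
            sc f (x :: (zg a b (2 * m + 1) ++ [b (2 * m + 1)])) +
              sc f (b (2 * m + 1) :: [a (2 * m + 1), y]) := adjC_append _ _ _
        rw [h2]
        have h3 := partB (fun q => - f q) a b x (by simpa using hx) m
          (fun i hi => by simpa using h i (by omega)) (b (2 * m + 1))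
          (by simpa using h _ (by omega))
        rw [sc_neg'] at h3
        have h4 : sc f (b (2 * m + 1) :: [a (2 * m + 1), y]) ≤ 1 :=
          (sc_three f (h _ (by omega)) hy []).trans (by rw [sc_one])
        omega
  · intro ha hb
    have h1 := partC f a b n
    have h2 : sc f (zg a b n) ≤ sc f (zg a b n ++ [if n % 2 = 0 then a n else b n]) := by
      have := adjC_add_le (P := fun p q => f p * f q < 0) (zg a b n)
        [if n % 2 = 0 then a n else b n]
      unfold sc
      omega
    have h3 : ∑ i ∈ Finset.range n, (if f (a i) * f (b i) < 0 then 1 else 0) ≤ n := by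
      rw [← Finset.card_filter]
      exact (Finset.card_filter_le _ _).trans (by rw [Finset.card_range])
    have h4 := sum_le_one n (fun i => f (a i) * f (a (i + 1)) < 0)
      (fun i _ j _ hi hj => affine_change ha hi hj)
    have h5 := sum_le_one n (fun i => f (b i) * f (b (i + 1)) < 0)
      (fun i _ j _ hi hj => affine_change hb hi hj)
    omega
  · intro ha hb hu
    have h1 := partC f a b n
    have h2 : sc f (zg a b n) ≤ sc f (zg a b n ++ [if n % 2 = 0 then a n else b n]) := by
      have := adjC_add_le (P := fun p q => f p * f q < 0) (zg a b n)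
        [if n % 2 = 0 then a n else b n]
      unfold sc
      omega
    have h3 := sum_le_one n (fun i => f (a i) * f (b i) < 0)
      (fun i hi j hj h1 h2 => hu i hi j hj h1 h2)
    have h4 := sum_le_one n (fun i => f (a i) * f (a (i + 1)) < 0)
      (fun i _ j _ hi hj => affine_change ha hi hj)
    have h5 := sum_le_one n (fun i => f (b i) * f (b (i + 1)) < 0)
      (fun i _ j _ hi hj => affine_change hb hi hj)
    omega

end Pool.Agent.Q190.PS
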