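import Pool.Agent.Q229.PS.Stm

set_option autoImplicit false

/-!
# Project PS (helper229): job Y2 (helper190)
-/

namespace Pool.Agent.Q190.PS

open Pool.Agent.Q229.PS

theorem length_flatMap_le {ι : Type} (g : ι → List Pt) (B : ℕ) (l : List ι)
    (h : ∀ i ∈ l, (g i).length ≤ B) : (l.flatMap g).length ≤ l.length * B := by
  induction l with
  | nil => simp
  | cons i l ih =>
    rw [List.flatMap_cons, List.length_append, List.length_cons]
    have h1 := h i (by simp)
    have h2 := ih (fun j hj => h j (List.mem_cons_of_mem _ hj))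
    calc (g i).length + (l.flatMap g).length ≤ B + l.length * B := by omega
      _ = (l.length + 1) * B := by ring

theorem sc_le (f : Pt → ℝ) (l : List Pt) : sc f l ≤ l.length := by
  have h := adjC_le (P := fun p q => f p * f q < 0) l
  unfold sc
  omega

theorem sc_app (f : Pt → ℝ) (l l' : List Pt) : sc f (l ++ l') ≤ sc f l + 1 + sc f l' :=
  adjC_append_le l l'

/-- **PS-Y2.** -/
theorem t_Y2 : Y2Stm := by
  intro hY1 p hp M α β γ hM hV hH
  obtain ⟨f, hf⟩ : ∃ f, f = lin α β γ := ⟨_, rfl⟩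
  rw [← hf] at hV hH ⊢
  -- the full rows
  have hcV : sc f p.cV ≤ 3 := by
    refine (hY1 f _ _ p.T).2.2.2 ?_ ?_ hV
    · refine ⟨α * p.W + β * p.YY - γ, β * p.YY, fun i => ?_⟩
      rw [hf, lin]
      push_cast
      ring
    · refine ⟨β * p.YY - γ, β * p.YY, fun i => ?_⟩
      rw [hf, lin]
      push_cast
      ring
  have hcH : sc f p.cH ≤ 3 := by
    refine (hY1 f _ _ (p.T - 1)).2.2.2 ?_ ?_ hH
    · refine ⟨α * p.XX - γ, α * p.XX, fun i => ?_⟩
      rw [hf, lin]
      push_cast
      ring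
    · refine ⟨α * p.XX + β * p.H - γ, α * p.XX, fun i => ?_⟩
      rw [hf, lin]
      push_cast
      ring
  have hS : ((List.range (p.m + 2)).flatMap p.cS).length ≤ (p.m + 2) * (2 * p.D) := by
    refine (length_flatMap_le p.cS (2 * p.D) _ fun j _ => ?_).trans (by rw [List.length_range])
    unfold Par.cS
    rw [length_zg]
    have : p.s j ≤ p.D := Nat.sub_le _ _
    omega
  have hT : ((List.range p.R).flatMap (fun k => p.cT (p.R - k))).length ≤ p.R * (2 * p.D) := by
    refine (length_flatMap_le (fun k => p.cT (p.R - k)) (2 * p.D) _ fun j _ => ?_).trans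
      (by rw [List.length_range])
    simp only [Par.cT]
    rw [length_zg]
  have h1 : sc f (M ++ p.cRest) ≤ sc f M + 1 + sc f p.cRest := sc_app _ _ _
  have h2 : sc f p.cRest ≤ sc f p.cR1 + 1 + sc f (p.cV ++ p.cR2) := sc_app _ _ _
  have h3 : sc f (p.cV ++ p.cR2) ≤ sc f p.cV + 1 + sc f p.cR2 := sc_app _ _ _
  have h4 : sc f p.cR2 ≤ sc f ((List.range p.R).flatMap (fun k => p.cT (p.R - k))) + 1 +
      sc f ((p.X + p.D + 1, 0) :: p.cH) := sc_app _ _ _
  have h5 : sc f ((p.X + p.D + 1, 0) :: p.cH) ≤ sc f [(p.X + p.D + 1, 0)] + 1 + sc f p.cH :=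
    sc_app f [(p.X + p.D + 1, 0)] p.cH
  have h6 : sc f [(p.X + p.D + 1, 0)] = 0 := rfl
  have h7 : sc f p.cR1 ≤ (p.m + 2) * (2 * p.D) + 1 := by
    refine (sc_le _ _).trans ?_
    unfold Par.cR1
    rw [List.length_append, List.length_singleton]
    omega
  have h8 := sc_le f M
  have h9 := sc_le f ((List.range p.R).flatMap (fun k => p.cT (p.R - k)))
  have h10 := hp.hTb
  have h11 : p.K = p.T + p.D := rfl
  have e1 : (p.m + 2) * (2 * p.D) = 2 * p.D * (p.m + 2) := by ring
  have e2 : p.R * (2 * p.D) = 2 * p.D * p.R := by ring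
  rw [e1] at h7 hS
  rw [e2] at hT
  rw [h11]
  generalize 2 * p.D * (p.m + 2) = u at *
  generalize 2 * p.D * p.R = v at *
  omega

end Pool.Agent.Q190.PS
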