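import Pool.Agent.Q229.PS.Stm

set_option autoImplicit false

/-!
# Project PS (helper229): job Y3 (helper190)
-/

namespace Pool.Agent.Q190.PS

open Pool.Agent.Q229.PS

theorem lin_neg (α β γ : ℝ) (q : Pt) : lin (-α) (-β) (-γ) q = - lin α β γ q := by
  unfold lin
  ring

/-- the case `α > 0` -/
theorem lowV_pos (hY1 : Y1Stm) (p : Par) (hp : p.Ok) (α β γ : ℝ) (hα : 0 < α) (i i' : ℕ)
    (hi : i < i') (hi' : i' < p.T)
    (h1 : lin α β γ (p.W, (i + 1) * p.YY) * lin α β γ (0, (i + 1) * p.YY) < 0)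
    (h2 : lin α β γ (p.W, (i' + 1) * p.YY) * lin α β γ (0, (i' + 1) * p.YY) < 0) :
    LowV p (lin α β γ) (γ / α) := by
  -- the parameters as real numbers
  have hL : 4 ≤ p.L := le_trans (by omega) hp.hL
  have hWn : 1 ≤ p.W := by
    unfold Par.W
    nlinarith
  have hW : (1 : ℝ) ≤ p.W := by exact_mod_cast hWn
  have hYY : 4 * (p.W : ℝ) * (p.Y + p.D + 2) < p.YY := by exact_mod_cast hp.hYY
  have hX : ((p.T : ℝ) + 1) * p.W ≤ p.X := by exact_mod_cast hp.hX
  have hY : ((p.T : ℝ) + 1) * p.H ≤ p.Y := by exact_mod_cast hp.hY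
  have hT0 : (0 : ℝ) ≤ p.T := Nat.cast_nonneg _
  have hH0 : (0 : ℝ) ≤ p.H := Nat.cast_nonneg _
  have hD0 : (0 : ℝ) ≤ p.D := Nat.cast_nonneg _
  have hY0 : (0 : ℝ) ≤ p.Y := Nat.cast_nonneg _
  have hi1 : (i : ℝ) + 1 ≤ i' := by exact_mod_cast hi
  have hi2 : (i' : ℝ) + 1 ≤ p.T := by exact_mod_cast hi'
  have hi0 : (0 : ℝ) ≤ i := Nat.cast_nonneg _
  have hYYp : (0 : ℝ) < p.YY := lt_of_le_of_lt (by positivity) hYY
  -- the signs
  have e1 : ∀ x y : ℕ, lin α β γ (x, y) = α * x + β * y - γ := fun x y => rfl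
  have key : ∀ j : ℕ, lin α β γ (p.W, (j + 1) * p.YY) * lin α β γ (0, (j + 1) * p.YY) < 0 →
      β * ((j + 1) * p.YY) < γ ∧ γ < α * p.W + β * ((j + 1) * p.YY) := by
    intro j hj
    rw [e1, e1] at hj
    push_cast at hj
    have hαW : 0 < α * p.W := by positivity
    rcases mul_neg_iff.1 hj with ⟨u1, u2⟩ | ⟨u1, u2⟩
    · constructor <;> linarith
    · linarith
  obtain ⟨a1, a2⟩ := key i h1
  obtain ⟨b1, b2⟩ := key i' h2
  -- the slope
  have hβ : |β| * p.YY < α * p.W := by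
    have h3 : (p.YY : ℝ) ≤ ((i' : ℝ) + 1) * p.YY - ((i : ℝ) + 1) * p.YY := by nlinarith
    rcases le_total 0 β with hb | hb
    · rw [abs_of_nonneg hb]
      have h4 := mul_le_mul_of_nonneg_left h3 hb
      linarith
    · rw [abs_of_nonpos hb]
      have h4 := mul_le_mul_of_nonneg_left h3 (neg_nonneg.2 hb)
      linarith
  have hβ4 : |β| * (p.Y + p.D + 2) < α / 4 := by
    have h3 : |β| * (4 * p.W * (p.Y + p.D + 2)) ≤ |β| * p.YY :=
      mul_le_mul_of_nonneg_left hYY.le (abs_nonneg β)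
    have h4 : (|β| * (p.Y + p.D + 2)) * (4 * p.W) < (α / 4) * (4 * p.W) := by linarith
    exact lt_of_mul_lt_mul_right h4 (by positivity)
  have hx0 : α * (γ / α) = γ := mul_div_cancel₀ γ hα.ne'
  refine ⟨?_, ?_, ?_, ?_⟩
  · rintro ⟨x, y⟩ hy
    have hy' : (y : ℝ) ≤ p.Y + p.D + 1 := by exact_mod_cast hy
    have hy0 : (0 : ℝ) ≤ y := Nat.cast_nonneg _
    have h3 : |β * y| < α / 4 := by
      rw [abs_mul, abs_of_nonneg hy0]
      refine lt_of_le_of_lt (mul_le_mul_of_nonneg_left ?_ (abs_nonneg β)) hβ4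
      linarith
    obtain ⟨h4, h5⟩ := abs_lt.1 h3
    have h6 : lin α β γ (x, y) = α * (x - γ / α) + β * y := by
      rw [e1, mul_sub, hx0]
      ring
    constructor
    · intro hx
      have hx' : γ / α + 1 / 4 ≤ (x : ℝ) := hx
      have h7 : α * (1 / 4) ≤ α * (x - γ / α) := mul_le_mul_of_nonneg_left (by linarith) hα.le
      rw [h6]
      linarith
    · intro hx
      have hx' : (x : ℝ) ≤ γ / α - 1 / 4 := hx
      have h7 : α * (x - γ / α) ≤ α * (-(1 / 4)) := mul_le_mul_of_nonneg_left (by linarith) hα.le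
      rw [h6]
      linarith
  · rintro ⟨x, y⟩ hx hy
    have hx' : (p.X : ℝ) + 1 ≤ x := by exact_mod_cast hx
    have hy' : (y : ℝ) ≤ p.H := by exact_mod_cast hy
    have hy0 : (0 : ℝ) ≤ y := Nat.cast_nonneg _
    obtain ⟨h, hh⟩ : ∃ h : ℝ, h = ((i : ℝ) + 1) * p.YY := ⟨_, rfl⟩
    have hhT : h ≤ p.T * p.YY := by
      rw [hh]
      exact mul_le_mul_of_nonneg_right (by linarith) hYYp.le
    have hhp : 0 < h := by
      rw [hh]
      positivity
    have hYYH : (y : ℝ) ≤ p.T * p.YY := by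
      have h3 : (p.H : ℝ) ≤ p.Y := by nlinarith
      have h4 : (p.Y : ℝ) ≤ p.YY := by nlinarith
      have h5 : (1 : ℝ) ≤ p.T := by linarith
      nlinarith
    have h3 : |β * (y - h)| ≤ p.T * (α * p.W) := by
      rw [abs_mul]
      have h4 : |(y : ℝ) - h| ≤ p.T * p.YY := by
        rw [abs_le]
        constructor <;> linarith
      calc |β| * |(y : ℝ) - h| ≤ |β| * (p.T * p.YY) := mul_le_mul_of_nonneg_left h4 (abs_nonneg β)
        _ = p.T * (|β| * p.YY) := by ring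
        _ ≤ p.T * (α * p.W) := mul_le_mul_of_nonneg_left hβ.le hT0
    have h4 := (abs_le.1 h3).1
    have h5 : α * (p.T * p.W + 1) ≤ α * (x - p.W) := mul_le_mul_of_nonneg_left (by linarith) hα.le
    rw [e1]
    rw [← hh] at a2
    have e2 : β * (y - h) = β * y - β * h := by ring
    rw [e2] at h4
    have e3 : α * (x - p.W) = α * x - α * p.W := by ring
    rw [e3] at h5
    have e4 : α * (p.T * p.W + 1) = p.T * (α * p.W) + α := by ring
    rw [e4] at h5
    linarith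
  · intro h3 h4
    have h3' : α * (0 : ℕ) + β * (0 : ℕ) - γ < 0 := h3
    have h4' : 0 < α * p.W + β * (0 : ℕ) - γ := h4
    push_cast at h3' h4'
    rcases le_total 0 β with hb | hb
    · left
      intro j _
      rw [e1]
      have h5 : 0 ≤ β * (((j + 1) * p.YY : ℕ) : ℝ) := mul_nonneg hb (Nat.cast_nonneg _)
      linarith
    · right
      intro j _
      rw [e1]
      have h5 : β * (((j + 1) * p.YY : ℕ) : ℝ) ≤ 0 :=
        mul_nonpos_of_nonpos_of_nonneg hb (Nat.cast_nonneg _)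
      push_cast at h5 ⊢
      linarith
  · refine (hY1 (lin α β γ) _ _ p.T).2.2.1 ?_ ?_
    · refine ⟨α * p.W + β * p.YY - γ, β * p.YY, fun j => ?_⟩
      rw [e1]
      push_cast
      ring
    · refine ⟨β * p.YY - γ, β * p.YY, fun j => ?_⟩
      rw [e1]
      push_cast
      ring

/-- **PS-Y3.** -/
theorem t_Y3 : Y3Stm := by
  intro hY1 p hp α β γ i i' hi hi' h1 h2
  rcases lt_trichotomy α 0 with h | h | h
  · refine ⟨lin (-α) (-β) (-γ), (-γ) / (-α), Or.inr rfl, ?_⟩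
    refine lowV_pos hY1 p hp (-α) (-β) (-γ) (by linarith) i i' hi hi' ?_ ?_
    · rw [lin_neg, lin_neg]
      linarith
    · rw [lin_neg, lin_neg]
      linarith
  · exfalso
    have h3 : lin α β γ (p.W, (i + 1) * p.YY) = lin α β γ (0, (i + 1) * p.YY) := by
      unfold lin
      rw [h]
      ring
    rw [h3] at h1
    nlinarith [mul_self_nonneg (lin α β γ (0, (i + 1) * p.YY))]
  · exact ⟨lin α β γ, γ / α, Or.inl rfl, lowV_pos hY1 p hp α β γ h i i' hi hi' h1 h2⟩

end Pool.Agent.Q190.PS
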