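import Pool.Agent.Q190.PS.Y3

set_option autoImplicit false

/-!
# Project PS (helper229): job Y4 (helper190)
-/

namespace Pool.Agent.Q190.PS

open Pool.Agent.Q229.PS

/-- the case `β > 0` -/
theorem lowH_pos (hY1 : Y1Stm) (p : Par) (hp : p.Ok) (α β γ : ℝ) (hβ : 0 < β) (i i' : ℕ)
    (hi : i < i') (hi' : i' < p.T - 1)
    (h1 : lin α β γ ((i + 1) * p.XX, 0) * lin α β γ ((i + 1) * p.XX, p.H) < 0)
    (h2 : lin α β γ ((i' + 1) * p.XX, 0) * lin α β γ ((i' + 1) * p.XX, p.H) < 0) :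
    LowH p (lin α β γ) (γ / β) := by
  -- the parameters as real numbers
  have hL : 4 ≤ p.L := le_trans (by omega) hp.hL
  have hHn : 1 ≤ p.H := by
    unfold Par.H
    nlinarith
  have hWn : 1 ≤ p.W := by
    unfold Par.W
    nlinarith
  have hTn : 1 ≤ p.T := by omega
  have hH : (1 : ℝ) ≤ p.H := by exact_mod_cast hHn
  have hW : (1 : ℝ) ≤ p.W := by exact_mod_cast hWn
  have hXX : 4 * (p.H : ℝ) * (p.X + p.D + 2) < p.XX := by exact_mod_cast hp.hXX
  have hX : ((p.T : ℝ) + 1) * p.W ≤ p.X := by exact_mod_cast hp.hX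
  have hY : ((p.T : ℝ) + 1) * p.H ≤ p.Y := by exact_mod_cast hp.hY
  have hT0 : (0 : ℝ) ≤ p.T := Nat.cast_nonneg _
  have hD0 : (0 : ℝ) ≤ p.D := Nat.cast_nonneg _
  have hX0 : (0 : ℝ) ≤ p.X := Nat.cast_nonneg _
  have hi1 : (i : ℝ) + 1 ≤ i' := by exact_mod_cast hi
  have hi2 : (i' : ℝ) + 1 ≤ p.T := by exact_mod_cast (by omega : i' + 1 ≤ p.T)
  have hi0 : (0 : ℝ) ≤ i := Nat.cast_nonneg _
  have hXXp : (0 : ℝ) < p.XX := lt_of_le_of_lt (by positivity) hXX
  -- the signs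
  have e1 : ∀ x y : ℕ, lin α β γ (x, y) = α * x + β * y - γ := fun x y => rfl
  have key : ∀ j : ℕ, lin α β γ ((j + 1) * p.XX, 0) * lin α β γ ((j + 1) * p.XX, p.H) < 0 →
      α * ((j + 1) * p.XX) < γ ∧ γ < α * ((j + 1) * p.XX) + β * p.H := by
    intro j hj
    rw [e1, e1] at hj
    push_cast at hj
    have hβH : 0 < β * p.H := by positivity
    rcases mul_neg_iff.1 hj with ⟨u1, u2⟩ | ⟨u1, u2⟩
    · linarith
    · constructor <;> linarith
  obtain ⟨a1, a2⟩ := key i h1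
  obtain ⟨b1, b2⟩ := key i' h2
  -- the slope
  have hα : |α| * p.XX < β * p.H := by
    have h3 : (p.XX : ℝ) ≤ ((i' : ℝ) + 1) * p.XX - ((i : ℝ) + 1) * p.XX := by nlinarith
    rcases le_total 0 α with hb | hb
    · rw [abs_of_nonneg hb]
      have h4 := mul_le_mul_of_nonneg_left h3 hb
      linarith
    · rw [abs_of_nonpos hb]
      have h4 := mul_le_mul_of_nonneg_left h3 (neg_nonneg.2 hb)
      linarith
  have hα4 : |α| * (p.X + p.D + 2) < β / 4 := by
    have h3 : |α| * (4 * p.H * (p.X + p.D + 2)) ≤ |α| * p.XX :=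
      mul_le_mul_of_nonneg_left hXX.le (abs_nonneg α)
    have h4 : (|α| * (p.X + p.D + 2)) * (4 * p.H) < (β / 4) * (4 * p.H) := by linarith
    exact lt_of_mul_lt_mul_right h4 (by positivity)
  have hy0 : β * (γ / β) = γ := mul_div_cancel₀ γ hβ.ne'
  refine ⟨?_, ?_, ?_, ?_⟩
  · rintro ⟨x, y⟩ hx
    have hx' : (x : ℝ) ≤ p.X + p.D + 1 := by exact_mod_cast hx
    have hx0 : (0 : ℝ) ≤ x := Nat.cast_nonneg _
    have h3 : |α * x| < β / 4 := by
      rw [abs_mul, abs_of_nonneg hx0]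
      refine lt_of_le_of_lt (mul_le_mul_of_nonneg_left ?_ (abs_nonneg α)) hα4
      linarith
    obtain ⟨h4, h5⟩ := abs_lt.1 h3
    have h6 : lin α β γ (x, y) = β * (y - γ / β) + α * x := by
      rw [e1, mul_sub, hy0]
      ring
    constructor
    · intro hy
      have hy' : γ / β + 1 / 4 ≤ (y : ℝ) := hy
      have h7 : β * (1 / 4) ≤ β * (y - γ / β) := mul_le_mul_of_nonneg_left (by linarith) hβ.le
      rw [h6]
      linarith
    · intro hy
      have hy' : (y : ℝ) ≤ γ / β - 1 / 4 := hy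
      have h7 : β * (y - γ / β) ≤ β * (-(1 / 4)) := mul_le_mul_of_nonneg_left (by linarith) hβ.le
      rw [h6]
      linarith
  · rintro ⟨x, y⟩ hy hx
    have hy' : (p.Y : ℝ) + 1 ≤ y := by exact_mod_cast hy
    have hx' : (x : ℝ) ≤ p.W := by exact_mod_cast hx
    have hx0 : (0 : ℝ) ≤ x := Nat.cast_nonneg _
    obtain ⟨t, ht⟩ : ∃ t : ℝ, t = ((i : ℝ) + 1) * p.XX := ⟨_, rfl⟩
    have htT : t ≤ p.T * p.XX := by
      rw [ht]
      exact mul_le_mul_of_nonneg_right (by linarith) hXXp.le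
    have htp : 0 < t := by
      rw [ht]
      positivity
    have hXXW : (x : ℝ) ≤ p.T * p.XX := by
      have h3 : (p.W : ℝ) ≤ p.X := by nlinarith
      have h4 : (p.X : ℝ) ≤ p.XX := by nlinarith
      have h5 : (1 : ℝ) ≤ p.T := by linarith
      nlinarith
    have h3 : |α * (x - t)| ≤ p.T * (β * p.H) := by
      rw [abs_mul]
      have h4 : |(x : ℝ) - t| ≤ p.T * p.XX := by
        rw [abs_le]
        constructor <;> linarith
      calc |α| * |(x : ℝ) - t| ≤ |α| * (p.T * p.XX) := mul_le_mul_of_nonneg_left h4 (abs_nonneg α)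
        _ = p.T * (|α| * p.XX) := by ring
        _ ≤ p.T * (β * p.H) := mul_le_mul_of_nonneg_left hα.le hT0
    have h4 := (abs_le.1 h3).1
    have h5 : β * (p.T * p.H + 1) ≤ β * (y - p.H) := mul_le_mul_of_nonneg_left (by linarith) hβ.le
    rw [e1]
    rw [← ht] at a2
    have e2 : α * (x - t) = α * x - α * t := by ring
    rw [e2] at h4
    have e3 : β * (y - p.H) = β * y - β * p.H := by ring
    rw [e3] at h5
    have e4 : β * (p.T * p.H + 1) = p.T * (β * p.H) + β := by ring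
    rw [e4] at h5
    linarith
  · intro h3 h4
    have h3' : α * (0 : ℕ) + β * (0 : ℕ) - γ < 0 := h3
    have h4' : 0 < α * (0 : ℕ) + β * p.H - γ := h4
    push_cast at h3' h4'
    rcases le_total 0 α with hb | hb
    · right
      intro j _
      rw [e1]
      have h5 : 0 ≤ α * (((j + 1) * p.XX : ℕ) : ℝ) := mul_nonneg hb (Nat.cast_nonneg _)
      linarith
    · left
      intro j _
      rw [e1]
      have h5 : α * (((j + 1) * p.XX : ℕ) : ℝ) ≤ 0 :=
        mul_nonpos_of_nonpos_of_nonneg hb (Nat.cast_nonneg _)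
      push_cast at h5 ⊢
      linarith
  · refine ((hY1 (lin α β γ) _ _ (p.T - 1)).2.2.1 ?_ ?_).trans (by omega)
    · refine ⟨α * p.XX - γ, α * p.XX, fun j => ?_⟩
      rw [e1]
      push_cast
      ring
    · refine ⟨α * p.XX + β * p.H - γ, α * p.XX, fun j => ?_⟩
      rw [e1]
      push_cast
      ring

/-- **PS-Y4.** -/
theorem t_Y4 : Y4Stm := by
  intro hY1 p hp α β γ i i' hi hi' h1 h2
  rcases lt_trichotomy β 0 with h | h | h
  · refine ⟨lin (-α) (-β) (-γ), (-γ) / (-β), Or.inr rfl, ?_⟩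
    refine lowH_pos hY1 p hp (-α) (-β) (-γ) (by linarith) i i' hi hi' ?_ ?_
    · rw [lin_neg, lin_neg]
      linarith
    · rw [lin_neg, lin_neg]
      linarith
  · exfalso
    have h3 : lin α β γ ((i + 1) * p.XX, 0) = lin α β γ ((i + 1) * p.XX, p.H) := by
      unfold lin
      rw [h]
      ring
    rw [h3] at h1
    nlinarith [mul_self_nonneg (lin α β γ ((i + 1) * p.XX, p.H))]
  · exact ⟨lin α β γ, γ / β, Or.inl rfl, lowH_pos hY1 p hp α β γ h i i' hi hi' h1 h2⟩

end Pool.Agent.Q190.PS
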